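import Pool.Agent.K6.H72.FD.Geo3

/-!
# Uniform bound for fields of definition over fields of moduli (Q1, full answer)

For every `N ≥ 1` the supremum over all `d ≥ 2` of `FOM/FOD(N, d)` is finite.
-/

open MvPolynomial

namespace Pool.Agent.Results.MP_db5b97_nt.UniformBound

noncomputable section

/-- The field of algebraic numbers. -/
abbrev Qbar : Type := AlgebraicClosure ℚ

/-- `(N+1)`-tuples of polynomials in `N+1` variables over `Qbar`. -/
abbrev Tup (N : ℕ) : Type := Fin (N + 1) → MvPolynomial (Fin (N + 1)) Qbar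

/-- `[F_0 : ... : F_N]` is a degree `d` morphism of `ℙ^N`: the `F_i` are homogeneous of degree `d`
and have no common zero except the origin. -/
def IsMorphism {N : ℕ} (d : ℕ) (F : Tup N) : Prop :=
  (∀ i, (F i).IsHomogeneous d) ∧ ∀ x : Fin (N + 1) → Qbar, (∀ i, eval x (F i) = 0) → x = 0

/-- The coordinate tuple of `φ⁻¹ ∘ F ∘ φ`. -/
def conj {N : ℕ} (φ : GL (Fin (N + 1)) Qbar) (F : Tup N) : Tup N :=
  fun i => ∑ j, C ((↑(φ⁻¹) : Matrix (Fin (N + 1)) (Fin (N + 1)) Qbar) i j) *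
    bind₁ (fun l => ∑ m, C ((φ : Matrix (Fin (N + 1)) (Fin (N + 1)) Qbar) l m) * X m) (F j)

/-- `F^σ`: the automorphism `σ` applied to the coefficients of `F`. -/
def galois {N : ℕ} (σ : Qbar ≃ₐ[ℚ] Qbar) (F : Tup N) : Tup N :=
  fun i => map (σ : Qbar →+* Qbar) (F i)

/-- `[F]` and `[G]` are conjugate under `PGL_{N+1}(Qbar)`: some nonzero multiple of some
conjugate of `F` is `G`. -/
def IsConj {N : ℕ} (F G : Tup N) : Prop :=
  ∃ (φ : GL (Fin (N + 1)) Qbar) (c : Qbarˣ), ∀ i, G i = C (c : Qbar) * conj φ F i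

/-- The field of moduli of `[F]`: the fixed field of the automorphisms `σ` for which `[F^σ]` is
conjugate to `[F]`. -/
def fieldOfModuli {N : ℕ} (F : Tup N) : IntermediateField ℚ Qbar :=
  IntermediateField.fixedField (Subgroup.closure {σ : Qbar ≃ₐ[ℚ] Qbar | IsConj F (galois σ F)})

/-- `L` is a field of definition of `[F]`: some nonzero multiple of some conjugate of `F` has all
its coefficients in `L`. -/
def IsFieldOfDefinition {N : ℕ} (L : IntermediateField ℚ Qbar) (F : Tup N) : Prop :=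
  ∃ (φ : GL (Fin (N + 1)) Qbar) (c : Qbarˣ), ∀ i m, coeff m (C (c : Qbar) * conj φ F i) ∈ L

/-- The least degree `[L : K_F]` over the fields of definition `L` of `[F]`. -/
def minDegree {N : ℕ} (F : Tup N) : ℕ∞ :=
  ⨅ (L : IntermediateField ℚ Qbar) (_ : IsFieldOfDefinition L F),
    Cardinal.toENat (IntermediateField.relrank (fieldOfModuli F) L)

/-- `FOM/FOD(N, d)`. -/
def FOMFOD (N d : ℕ) : ℕ∞ := ⨆ (F : Tup N) (_ : IsMorphism d F), minDegree F

theorem isAlgebraic_Qbar : Algebra.IsAlgebraic ℚ Qbar := by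
  have h : @Algebra.IsAlgebraic ℚ (AlgebraicClosure ℚ) _ _ (AlgebraicClosure.instAlgebra ℚ) :=
    inferInstance
  convert h
  exact Subsingleton.elim _ _

theorem isGalois_Qbar : IsGalois ℚ Qbar := by
  have h : @IsGalois ℚ _ (AlgebraicClosure ℚ) _ (AlgebraicClosure.instAlgebra ℚ) := inferInstance
  convert h
  exact Subsingleton.elim _ _

/-- Every field of definition contains the field of moduli (so that the relative rank in
`minDegree` is the degree `[L : K_F]`). -/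
theorem fieldOfModuli_le {N : ℕ} {F : Tup N} {L : IntermediateField ℚ Qbar}
    (hL : IsFieldOfDefinition L F) : fieldOfModuli F ≤ L := by
  obtain ⟨φ, c, h⟩ := hL
  have hinf : Infinite Qbar := IsAlgClosed.instInfinite
  have := isAlgebraic_Qbar
  have := isGalois_Qbar
  intro x hx
  rw [← InfiniteGalois.fixedField_fixingSubgroup L, IntermediateField.mem_fixedField_iff]
  intro σ hσ
  rw [fieldOfModuli, IntermediateField.mem_fixedField_iff] at hx
  apply hx
  apply Subgroup.subset_closure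
  rw [IntermediateField.mem_fixingSubgroup_iff] at hσ
  let G : Tup N := fun i => C (c : Qbar) * conj φ F i
  have hG : galois σ G = G := by
    funext i
    ext m
    simp only [galois, coeff_map]
    exact hσ _ (h i m)
  let ψ : GL (Fin (N + 1)) Qbar := Matrix.GeneralLinearGroup.map (σ : Qbar →+* Qbar) φ
  have hψ : ∀ v : Fin (N + 1) → Qbar,
      (ψ : Matrix (Fin (N + 1)) (Fin (N + 1)) Qbar).mulVec (σ ∘ v) =
      σ ∘ ((φ : Matrix (Fin (N + 1)) (Fin (N + 1)) Qbar).mulVec v) := by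
    intro v
    funext i
    simp [ψ, Matrix.mulVec, dotProduct]
  have hGev : ∀ w, K6.H72.FD.ev G w = (c : Qbar) •
      (↑(φ⁻¹) : Matrix (Fin (N + 1)) (Fin (N + 1)) Qbar).mulVec (K6.H72.FD.ev F
        ((φ : Matrix (Fin (N + 1)) (Fin (N + 1)) Qbar).mulVec w)) := by
    intro w
    rw [← K6.H72.FD.ev_conj]
    funext i
    simp only [K6.H72.FD.ev, G, Pi.smul_apply, smul_eq_mul, map_mul, eval_C]
    rfl
  have hσc : σ (c : Qbar) ≠ 0 := by
    intro h0
    exact c.ne_zero (by simpa using h0)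
  refine ⟨φ * ψ⁻¹, c * (Units.mk0 (σ (c : Qbar)) hσc)⁻¹, ?_⟩
  have key : K6.H72.FD.mapT (σ : Qbar →+* Qbar) F = fun i =>
      C ((c * (Units.mk0 (σ (c : Qbar)) hσc)⁻¹ : Qbarˣ) : Qbar) *
        Helper819.Dyn.conj (φ * ψ⁻¹) F i := by
    apply K6.H72.FD.ev_inj
    intro x
    obtain ⟨w, rfl⟩ : ∃ w : Fin (N + 1) → Qbar,
        (σ : Qbar →+* Qbar) ∘ ((φ : Matrix (Fin (N + 1)) (Fin (N + 1)) Qbar).mulVec w) = x := by
      refine ⟨(↑(φ⁻¹) : Matrix (Fin (N + 1)) (Fin (N + 1)) Qbar).mulVec (σ.symm ∘ x), ?_⟩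
      rw [K6.H72.FD.mulVec_inv]
      funext i
      simp
    rw [K6.H72.FD.ev_mapT]
    have h1 : K6.H72.FD.ev F ((φ : Matrix (Fin (N + 1)) (Fin (N + 1)) Qbar).mulVec w) =
        ((c⁻¹ : Qbarˣ) : Qbar) • (φ : Matrix (Fin (N + 1)) (Fin (N + 1)) Qbar).mulVec
          (K6.H72.FD.ev G w) := by
      rw [hGev, Matrix.mulVec_smul, K6.H72.FD.mulVec_inv, smul_smul, Units.inv_mul, one_smul]
    have h2 : (σ : Qbar →+* Qbar) ∘ (K6.H72.FD.ev F
        ((φ : Matrix (Fin (N + 1)) (Fin (N + 1)) Qbar).mulVec w)) =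
        (σ (c : Qbar))⁻¹ • (ψ : Matrix (Fin (N + 1)) (Fin (N + 1)) Qbar).mulVec
          (K6.H72.FD.ev G (σ ∘ w)) := by
      have h3 : K6.H72.FD.ev G (σ ∘ w) = σ ∘ (K6.H72.FD.ev G w) := by
        have := K6.H72.FD.ev_mapT (σ : Qbar →+* Qbar) G w
        have h4 : K6.H72.FD.mapT (σ : Qbar →+* Qbar) G = G := hG
        rw [h4] at this
        exact this
      rw [h3, hψ, h1]
      funext i
      simp [Matrix.mulVec, dotProduct]
    rw [h2, hGev]
    have h5 : (φ : Matrix (Fin (N + 1)) (Fin (N + 1)) Qbar).mulVec (σ ∘ w) =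
        (↑(φ * ψ⁻¹) : Matrix (Fin (N + 1)) (Fin (N + 1)) Qbar).mulVec
        ((σ : Qbar →+* Qbar) ∘ ((φ : Matrix (Fin (N + 1)) (Fin (N + 1)) Qbar).mulVec w)) := by
      have h6 : (σ : Qbar →+* Qbar) ∘ ((φ : Matrix (Fin (N + 1)) (Fin (N + 1)) Qbar).mulVec w) =
          (ψ : Matrix (Fin (N + 1)) (Fin (N + 1)) Qbar).mulVec (σ ∘ w) := (hψ w).symm
      rw [h6, Units.val_mul, ← Matrix.mulVec_mulVec, K6.H72.FD.inv_mulVec]
    rw [h5, Matrix.mulVec_smul, smul_smul]
    have h7 : ∀ u : Fin (N + 1) → Qbar,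
        (ψ : Matrix (Fin (N + 1)) (Fin (N + 1)) Qbar).mulVec
          ((↑(φ⁻¹) : Matrix (Fin (N + 1)) (Fin (N + 1)) Qbar).mulVec u) =
        (↑((φ * ψ⁻¹)⁻¹) : Matrix (Fin (N + 1)) (Fin (N + 1)) Qbar).mulVec u := by
      intro u
      rw [mul_inv_rev, inv_inv, Units.val_mul, Matrix.mulVec_mulVec]
    rw [h7, ← K6.H72.FD.ev_conj]
    funext i
    simp only [K6.H72.FD.ev, Pi.smul_apply, smul_eq_mul, map_mul, eval_C]
    push_cast
    rw [Units.val_mk0]
    ring
  intro i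
  exact congrFun key i

/-- **Main result.** For every `N ≥ 1`, `sup_{d ≥ 2} FOM/FOD(N, d)` is finite. -/
theorem result : ∀ N : ℕ, 1 ≤ N → (⨆ (d : ℕ) (_ : 2 ≤ d), FOMFOD N d) < ⊤ := by
  intro N _
  have := isAlgebraic_Qbar
  obtain ⟨C0, hC⟩ := K6.H72.FD.exists_field N
  let e : Qbar →+* ℂ := (IsAlgClosed.lift : Qbar →ₐ[ℚ] ℂ).toRingHom
  refine lt_of_le_of_lt ?_ (ENat.coe_lt_top C0)
  refine iSup₂_le fun d hd => iSup₂_le fun F hF => ?_
  obtain ⟨L, φ, h1, h2⟩ := hC Qbar e d hd F hF.1 hF.2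
  refine (iInf₂_le L ⟨φ, 1, fun i m => ?_⟩).trans ?_
  swap
  · rw [Units.val_one, map_one, one_mul]
    exact h1 i m
  · rw [Cardinal.toENat_le_natCast]
    have h3 := K6.H72.FD.range_toGal hd hF.1
    have h4 : Subgroup.closure {σ : Qbar ≃ₐ[ℚ] Qbar | IsConj F (galois σ F)} =
        (K6.H72.FD.toGal F).range := by
      rw [← Subgroup.closure_eq (K6.H72.FD.toGal F).range, h3]
      rfl
    rw [fieldOfModuli, h4]
    exact h2

end

end Pool.Agent.Results.MP_db5b97_nt.UniformBound
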